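import Pool.Agent.Helper57.M.H

/-!
# The pair count of every window up to a bounded multiple of `S`, without the constant `A_T`
-/

set_option autoImplicit false
open Filter Topology MeasureTheory Set
open Pool.Agent.Helper57.PC Pool.Agent.Helper57.Zeta

namespace Pool.Agent.Helper57.EW

theorem two_sided : ∃ A T₀ : ℝ, 0 < A ∧ ∀ T : ℝ, T₀ ≤ T → ∀ α β : ℝ, 0 < α → α < β → β ≤ Real.log T →
    |pairCount T α β - (T * Real.log T / (2 * Real.pi)) * ∫ u in α..β, pcDensity u| ≤
      A * (T * Real.log T / (2 * Real.pi)) := by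
  obtain ⟨C, hC, hU⟩ := Pool.Agent.Helper57.UV.ULP_holds
  obtain ⟨C', hC', hN⟩ := Pool.Agent.Helper57.UV.NLP_holds
  obtain ⟨D, hD, h⟩ := Pool.Agent.Helper4.PF.bounded_full_F (c := 1/100) (θ := 15/16) (by norm_num)
    (by norm_num) (by norm_num) (by norm_num) hC hC' hU hN
  have hl1 : ∀ᶠ T : ℝ in atTop, Real.log T ≤ T ^ (1 / 100 : ℝ) := by
    have := (isLittleO_log_rpow_atTop (show (0:ℝ) < 1 / 100 by norm_num)).bound (show (0:ℝ) < 1 by norm_num)
    filter_upwards [this, eventually_gt_atTop 1] with T h1 h2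
    rw [one_mul, Real.norm_of_nonneg (Real.log_nonneg h2.le), Real.norm_of_nonneg (by positivity)] at h1
    exact h1
  obtain ⟨T₀, hT₀⟩ := eventually_atTop.mp (h.and (hl1.and (eventually_ge_atTop 3)))
  refine ⟨2 * D + |Pool.Agent.Helper4.PU.CAT|, T₀, by positivity, fun T hT α β hα hαβ hβ => ?_⟩
  obtain ⟨h1, h2, hT3⟩ := hT₀ T hT
  have hS : 0 < SN T := SN_pos (by linarith)
  have hl0 : 0 < Real.log T := Real.log_pos (by linarith)
  have hsq : Real.log T ≤ Real.sqrt T := by
    rw [Real.sqrt_eq_rpow]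
    exact h2.trans (Real.rpow_le_rpow_of_exponent_le (by linarith) (by norm_num))
  have h3 := h1 α β hα hαβ (hβ.trans hsq)
  have e : ∫ u in α..β, (pcDensity u + (Pool.Agent.Helper4.PU.AT T - 1)) =
      (∫ u in α..β, pcDensity u) + (Pool.Agent.Helper4.PU.AT T - 1) * (β - α) := by
    rw [intervalIntegral.integral_add (intervalIntegrable_pcDensity _ _) intervalIntegrable_const,
      intervalIntegral.integral_const, smul_eq_mul]
    ring
  rw [e] at h3
  have h4 : (β - α) / T ^ (1 / 100 : ℝ) ≤ 1 := by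
    rw [div_le_one (by positivity)]
    linarith
  have h5 : |(Pool.Agent.Helper4.PU.AT T - 1) * (β - α)| ≤ |Pool.Agent.Helper4.PU.CAT| := by
    rw [abs_mul, abs_of_pos (by linarith : 0 < β - α)]
    calc |Pool.Agent.Helper4.PU.AT T - 1| * (β - α) ≤ |Pool.Agent.Helper4.PU.CAT| / Real.log T * Real.log T := by
          refine mul_le_mul ((Pool.Agent.Helper4.PU.AT_close hT3).trans ?_) (by linarith) (by linarith) (by positivity)
          exact div_le_div_of_nonneg_right (le_abs_self _) hl0.le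
      _ = |Pool.Agent.Helper4.PU.CAT| := div_mul_cancel₀ _ hl0.ne'
  have h6 : D * (1 + (β - α) / T ^ (1 / 100 : ℝ)) * SN T ≤ 2 * D * SN T := by
    refine mul_le_mul_of_nonneg_right ?_ hS.le
    nlinarith
  show |pairCount T α β - SN T * ∫ u in α..β, pcDensity u| ≤ (2 * D + |Pool.Agent.Helper4.PU.CAT|) * SN T
  have h7 : SN T * |(Pool.Agent.Helper4.PU.AT T - 1) * (β - α)| ≤ SN T * |Pool.Agent.Helper4.PU.CAT| :=
    mul_le_mul_of_nonneg_left h5 hS.le
  have h8 : pairCount T α β - SN T * ∫ u in α..β, pcDensity u =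
      (pairCount T α β - SN T * ((∫ u in α..β, pcDensity u) + (Pool.Agent.Helper4.PU.AT T - 1) * (β - α))) +
      SN T * ((Pool.Agent.Helper4.PU.AT T - 1) * (β - α)) := by ring
  rw [h8]
  refine (abs_add_le _ _).trans ?_
  rw [abs_mul (SN T), abs_of_pos hS]
  linarith

end Pool.Agent.Helper57.EW
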